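import Pool.Agent.Lib.MP_a20daa_co.Band

set_option autoImplicit false

namespace Pool.Agent.Results.MP_a20daa_co.BandwidthLower

open Pool.Agent.Lib.MP_a20daa_co.Girth

/-- If `H` has at most `k` vertices and bandwidth at most `q`, there are arbitrarily large connected
graphs all of whose `H`-isolating sets have at least `2 n / min (18 q) (k + 2 q + 2)` vertices. -/
theorem result (k q : ℕ) (hq : 1 ≤ q) (W : Type) (H : SimpleGraph W) (z : W → Fin k)
    (hz : Function.Injective z) (hb : ∀ x y, H.Adj x y → (z x : ℕ) ≤ z y + q) (N : ℕ) :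
    ∃ n : ℕ, N ≤ n ∧ ∃ G : SimpleGraph (Fin n), G.Connected ∧ ∀ D : Finset (Fin n),
      (¬ ∃ f : H →g G, Function.Injective f ∧ ∀ x : W, f x ∉ D ∧ ∀ d ∈ D, ¬ G.Adj d (f x)) →
      2 * n ≤ min (18 * q) (k + 2 * q + 2) * D.card := by
  rcases min_choice (18 * q) (k + 2 * q + 2) with h | h <;> rw [h]
  · exact line_family hq hz hb N
  · exact unit_family hq hz hb N

end Pool.Agent.Results.MP_a20daa_co.BandwidthLower
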