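import Pool.Agent.Lib.MP_a20daa_co.Chord

set_option autoImplicit false

namespace Pool.Agent.Results.MP_a20daa_co.ChordalExact

open Pool.Agent.Lib.MP_a20daa_co.Chord

/-- For a connected graph `H` on `k` vertices the threshold constant of `H`-isolation in connected
chordal graphs is `1 / (k + 1)`, and all exceptions have `k` vertices. -/
theorem result (k : ℕ) (H : SimpleGraph (Fin k)) (hH : H.Connected) :
    (∀ n : ℕ, n ≠ k → ∀ G : SimpleGraph (Fin n), G.Connected →
      (∀ m : ℕ, 4 ≤ m → IsEmpty (SimpleGraph.cycleGraph m ↪g G)) →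
      ∃ D : Finset (Fin n), (k + 1) * D.card ≤ n ∧
        ¬ ∃ f : H →g G, Function.Injective f ∧ ∀ x, f x ∉ D ∧ ∀ d ∈ D, ¬ G.Adj d (f x)) ∧
    ∀ N : ℕ, ∃ n : ℕ, N ≤ n ∧ ∃ G : SimpleGraph (Fin n), G.Connected ∧
      (∀ m : ℕ, 4 ≤ m → IsEmpty (SimpleGraph.cycleGraph m ↪g G)) ∧ ∀ D : Finset (Fin n),
        (¬ ∃ f : H →g G, Function.Injective f ∧ ∀ x, f x ∉ D ∧ ∀ d ∈ D, ¬ G.Adj d (f x)) →
        n ≤ (k + 1) * D.card := by
  refine ⟨fun n hn G h1 h2 => ?_, fun N => ?_⟩
  · have := upper hH h1 h2 (by simpa using hn)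
    rw [Fintype.card_fin, Fintype.card_fin] at this
    exact this
  · have := tight H N
    rw [Fintype.card_fin] at this
    exact this

end Pool.Agent.Results.MP_a20daa_co.ChordalExact
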