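import Pool.Agent.FS.A20Deg.Main

set_option autoImplicit false

namespace Pool.Agent.Results.MP_a20daa_co.ExceptionsExpand

open Pool.Agent.FS.A20Deg

/-- For a connected graph `H` the asymptotic constant `c` of `H`-isolation exists, and a connected
graph with a reducible pair `(P, L)` has isolation number at most `c n`. -/
theorem result (k : ℕ) (H : SimpleGraph (Fin k)) (hH : H.Connected) :
    ∃ c : ℝ,
      (∀ ε : ℝ, 0 < ε → ∃ N : ℕ, ∀ n : ℕ, N ≤ n → ∃ G : SimpleGraph (Fin n), G.Connected ∧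
        ∀ D : Finset (Fin n),
          (¬ ∃ f : H →g G, Function.Injective f ∧ ∀ x, f x ∉ D ∧ ∀ d ∈ D, ¬ G.Adj d (f x)) →
          (c - ε) * n ≤ D.card) ∧
      ∀ (n : ℕ) (G : SimpleGraph (Fin n)), G.Connected → ∃ D : Finset (Fin n),
        (¬ ∃ f : H →g G, Function.Injective f ∧ ∀ x, f x ∉ D ∧ ∀ d ∈ D, ¬ G.Adj d (f x)) ∧
        (D.card : ℝ) ≤ c * (n + 1) ∧
        ((∃ P L : Finset (Fin n), P.Nonempty ∧ Disjoint P L ∧
            (¬ ∃ f : H →g G, Function.Injective f ∧ ∀ x, f x ∈ L) ∧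
            (∀ a ∈ L, ∀ b, G.Adj a b → b ∈ L ∨ b ∈ P ∨ ∃ p ∈ P, G.Adj p b) ∧
            (P.card : ℝ) ≤ c * (P.card + L.card +
              ({x | x ∉ P ∧ x ∉ L ∧ ∃ p ∈ P, G.Adj p x} : Set (Fin n)).ncard / 2)) →
          (D.card : ℝ) ≤ c * n) := by
  classical
  obtain ⟨c, hA, hc, hlow⟩ := exists_const hH
  refine ⟨c, fun ε hε => ?_, fun n G hG => ?_⟩
  · obtain ⟨N, hN⟩ := hlow ε hε
    refine ⟨N, fun n hn => ?_⟩
    obtain ⟨G, h1, h2⟩ := hN n hn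
    exact ⟨G, h1, fun D hD => h2 D (cl_univ_iff.2 hD)⟩
  · by_cases hv : ∃ P L : Finset (Fin n), P.Nonempty ∧ Disjoint P L ∧
        (¬ ∃ f : H →g G, Function.Injective f ∧ ∀ x, f x ∈ L) ∧
        (∀ a ∈ L, ∀ b, G.Adj a b → b ∈ L ∨ b ∈ P ∨ ∃ p ∈ P, G.Adj p b) ∧
        (P.card : ℝ) ≤ c * (P.card + L.card +
          ({x | x ∉ P ∧ x ∉ L ∧ ∃ p ∈ P, G.Adj p x} : Set (Fin n)).ncard / 2)
    · obtain ⟨P, L, hP, hPL, hL, hcL, hd⟩ := hv
      have hc0 : 0 < c := by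
        by_contra h
        have h1 : (1 : ℝ) ≤ P.card := by exact_mod_cast hP.card_pos
        have h2 : (0 : ℝ) ≤ P.card + L.card +
          ({x | x ∉ P ∧ x ∉ L ∧ ∃ p ∈ P, G.Adj p x} : Set (Fin n)).ncard / 2 := by positivity
        nlinarith
      obtain ⟨D, h1, h2⟩ := reduce hH hA hc G hG P L
        ({x | x ∉ P ∧ x ∉ L ∧ ∃ p ∈ P, G.Adj p x} : Set (Fin n)).toFinset hP hPL
        (fun x => Set.mem_toFinset) ⟨∅, fun f hf hx => absurd ⟨f, hf, hx⟩ hL, by simp⟩ hcL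
        (by rwa [← Set.ncard_eq_toFinset_card'])
      rw [Fintype.card_fin] at h2
      exact ⟨D, cl_univ_iff.1 h1, by linarith, fun _ => h2⟩
    · obtain ⟨D, h1, h2⟩ := unrooted hH hA G hG
      rw [Fintype.card_fin] at h2
      exact ⟨D, cl_univ_iff.1 h1, h2, fun h => absurd h hv⟩

end Pool.Agent.Results.MP_a20daa_co.ExceptionsExpand
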