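import Pool.Agent.FS.FifthTwo.Phase

set_option autoImplicit false

namespace Pool.Agent.Results.MP_a20daa_co.FifthExact

/-- Every graph on `n` vertices has a set of at most `(19 / 100 + 4 / min k 400) n` vertices that
isolates all connected graphs on at least `k` vertices; for `k ≥ 400` this is `n / 5`. -/
theorem result (k n : ℕ) (G : SimpleGraph (Fin n)) : ∃ D : Finset (Fin n),
    100 * min k 400 * D.card ≤ (19 * min k 400 + 400) * n ∧
      ∀ (W : Type) (H : SimpleGraph W), H.Connected → k ≤ Nat.card W →
        ¬ ∃ f : H →g G, Function.Injective f ∧ ∀ x : W, f x ∉ D ∧ ∀ d ∈ D, ¬ G.Adj d (f x) :=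
  Pool.Agent.FS.FifthTwo.main k n G

end Pool.Agent.Results.MP_a20daa_co.FifthExact
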